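import Pool.Agent.W2helper8.QP.Core

set_option autoImplicit false

namespace Pool.Agent.W2helper8.QP

/-- there are `C` consecutive residues modulo some `M` that contain no square -/
theorem exists_gap (C : ℕ) : ∃ M t : ℕ, C + 1 ≤ M ∧
    ∀ j < C, ∀ X : ℕ, X % M = (t + j) % M → ¬ IsSquare X := by
  let p : ℕ → ℕ := Nat.nth Nat.Prime
  have hp : ∀ j, (p j).Prime := Nat.prime_nth_prime
  have hcop : Set.Pairwise (↑(Finset.range C) : Set ℕ)
      (Function.onFun Nat.Coprime (fun j => p j ^ 2)) := by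
    intro i _ j _ hij
    apply Nat.Coprime.pow
    exact (Nat.coprime_primes (hp i) (hp j)).2
      (fun h => hij (Nat.nth_injective Nat.infinite_setOfPred_prime h))
  obtain ⟨t, ht⟩ := Nat.chineseRemainderOfFinset (fun j => p j + j * (p j ^ 2 - 1))
    (fun j => p j ^ 2) (Finset.range C) (fun j _ => pow_ne_zero 2 (hp j).ne_zero) hcop
  have hprod : 0 < ∏ j ∈ Finset.range C, p j ^ 2 :=
    Finset.prod_pos (fun j _ => pow_pos (hp j).pos 2)
  refine ⟨(C + 1) * ∏ j ∈ Finset.range C, p j ^ 2, t, Nat.le_mul_of_pos_right _ hprod, ?_⟩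
  rintro j hj X hX ⟨n, rfl⟩
  have h1 : p j ^ 2 ∣ (C + 1) * ∏ j ∈ Finset.range C, p j ^ 2 :=
    Dvd.dvd.mul_left (Finset.dvd_prod_of_mem (fun j => p j ^ 2) (Finset.mem_range.2 hj)) _
  have h2 : n * n ≡ t + j [MOD p j ^ 2] := Nat.ModEq.of_dvd h1 hX
  have h3 : t + j ≡ p j [MOD p j ^ 2] := by
    have h4 := (ht j (Finset.mem_range.2 hj)).add_right j
    refine h4.trans ?_
    have h5 : p j + j * (p j ^ 2 - 1) + j = p j + j * p j ^ 2 := by
      have : 1 ≤ p j ^ 2 := pow_pos (hp j).pos 2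
      obtain ⟨u, hu⟩ := Nat.exists_eq_add_of_le this
      rw [hu, Nat.add_sub_cancel_left]
      ring
    show (p j + j * (p j ^ 2 - 1) + j) % (p j ^ 2) = p j % (p j ^ 2)
    rw [h5]
    exact Nat.add_mul_mod_self_right _ _ _
  have h4 := h2.trans h3
  have h5 : p j ∣ n * n := by
    have h6 : n * n ≡ p j [MOD p j] := Nat.ModEq.of_dvd (dvd_pow_self _ two_ne_zero) h4
    exact (Nat.modEq_zero_iff_dvd).1 (h6.trans ((Nat.modEq_zero_iff_dvd).2 dvd_rfl))
  have h6 : p j ∣ n := by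
    rcases (hp j).dvd_mul.1 h5 with h | h <;> exact h
  have h7 : p j ^ 2 ∣ n * n := by
    rw [← pow_two]; exact pow_dvd_pow_of_dvd h6 2
  have h8 : p j ^ 2 ∣ p j := by
    exact (Nat.modEq_zero_iff_dvd).1 (h4.symm.trans ((Nat.modEq_zero_iff_dvd).2 h7))
  have h9 := Nat.le_of_dvd (hp j).pos h8
  have h10 := (hp j).two_le
  nlinarith

/-- for every diameter `C` there is a modulus `m` such that the squares contain no long
quasi-progression of diameter `C` whose difference is `0, -1, ..., -C` modulo `m` -/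
theorem near (C : ℕ) : ∃ m k : ℕ, 0 < m ∧ ∀ (x : ℕ → ℕ) (d c : ℕ), 0 < d → c ≤ C → m ∣ d + c →
    (∀ i < k, IsSquare (x i)) →
    (∀ i, i + 1 < k → x i + d ≤ x (i + 1) ∧ x (i + 1) ≤ x i + d + C) → False := by
  obtain ⟨M, t, hM, hgap⟩ := exists_gap C
  have hM0 : 0 < M := by omega
  obtain ⟨N, hN⟩ := vdw4 (Fin M)
  refine ⟨M, N, hM0, fun x d c hd hc hdvd hx hs => ?_⟩
  let s : ℕ := (M - C) + (M - 1) * t
  have hs1 : ∀ j, (t + j) + s = (M - C + j) + M * t := by
    intro j
    obtain ⟨u, hu⟩ : ∃ u, M = u + 1 := ⟨M - 1, by omega⟩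
    simp only [s]
    rw [hu, Nat.add_sub_cancel]
    ring
  let y : ℕ → ℕ := fun i => (x i + s) % M
  have hy : ∀ i < N, y i < M - C := by
    intro i hi
    by_contra hcon
    have h1 : y i < M := Nat.mod_lt _ hM0
    obtain ⟨j, hj⟩ : ∃ j, y i = M - C + j := ⟨y i - (M - C), by omega⟩
    refine hgap j (by omega) (x i) ?_ (hx i hi)
    have h2 : x i + s ≡ (t + j) + s [MOD M] := by
      rw [hs1 j]
      show (x i + s) % M = (M - C + j + M * t) % M
      rw [Nat.add_mul_mod_self_left, ← hj]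
      exact (Nat.mod_mod _ _).symm
    exact Nat.ModEq.add_right_cancel' s h2
  have hstep : ∀ i, i + 1 < N → (x (i + 1) : ℤ) - y (i + 1) = x i - y i + (d + c) := by
    intro i hi
    obtain ⟨h1, h2⟩ := hs i hi
    obtain ⟨e, he⟩ : ∃ e, x (i + 1) = x i + d + e := ⟨x (i + 1) - (x i + d), by omega⟩
    have h3 := hy i (by omega)
    have h4 := hy (i + 1) hi
    have h5 : y (i + 1) + c ≡ y i + e [MOD M] := by
      have h6 : y (i + 1) ≡ x (i + 1) + s [MOD M] := Nat.mod_modEq _ _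
      have h7 : y i ≡ x i + s [MOD M] := Nat.mod_modEq _ _
      have h8 : x (i + 1) + s + c = (x i + s + e) + (d + c) := by rw [he]; ring
      calc y (i + 1) + c ≡ x (i + 1) + s + c [MOD M] := h6.add_right c
        _ = (x i + s + e) + (d + c) := h8
        _ ≡ (x i + s + e) + 0 [MOD M] := ((Nat.modEq_zero_iff_dvd).2 hdvd).add_left _
        _ ≡ y i + e [MOD M] := by rw [add_zero]; exact (h7.add_right e).symm
    have h9 : y (i + 1) + c = y i + e :=
      Nat.ModEq.eq_of_lt_of_lt h5 (by omega) (by omega)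
    rw [he]
    push_cast
    have h10 : (y (i + 1) : ℤ) + c = y i + e := by exact_mod_cast h9
    linarith
  have hform : ∀ i, i < N → (x i : ℤ) = x 0 - y 0 + i * (d + c) + y i := by
    intro i
    induction i with
    | zero => intro _; push_cast; ring
    | succ i ih =>
      intro hi
      have h1 := ih (by omega)
      have h2 := hstep i hi
      push_cast
      linarith
  obtain ⟨a, r, hr, har, g1, g2, g3⟩ := hN (fun i => (⟨y i, Nat.mod_lt _ hM0⟩ : Fin M))
  simp only [Fin.mk.injEq] at g1 g2 g3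
  have f0 := hform a (by omega)
  have f1 := hform (a + r) (by omega)
  have f2 := hform (a + 2 * r) (by omega)
  have f3 := hform (a + 3 * r) (by omega)
  rw [g1] at f1
  rw [g2] at f2
  rw [g3] at f3
  push_cast at f1 f2 f3
  obtain ⟨p, hp⟩ := hx a (by omega)
  obtain ⟨q, hq⟩ := hx (a + r) (by omega)
  obtain ⟨u, hu⟩ := hx (a + 2 * r) (by omega)
  obtain ⟨v, hv⟩ := hx (a + 3 * r) (by omega)
  rw [hp] at f0
  rw [hq] at f1
  rw [hu] at f2
  rw [hv] at f3
  push_cast at f0 f1 f2 f3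
  have e1 : (q : ℤ) ^ 2 - p ^ 2 = u ^ 2 - q ^ 2 := by linear_combination 2 * f1 - f0 - f2
  have e2 : (u : ℤ) ^ 2 - q ^ 2 = v ^ 2 - u ^ 2 := by linear_combination 2 * f2 - f1 - f3
  have e3 := Pool.Agent.TH213.SP.four_squares e1 e2
  have e4 : (r : ℤ) * (d + c) = 0 := by linear_combination f0 - f1 - e3
  have e5 : 0 < (r : ℤ) * (d + c) := by positivity
  omega

end Pool.Agent.W2helper8.QP
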