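import Mathlib
import Pool.Prelude.Def_F_fa980078
import Pool.Agent.TH213.SP.Fermat

/-!
# Quasi-progressions in the squares: residue graphs

For a modulus `M`, a difference `d` and a diameter `C` consider the graph on the squares modulo `M`
with an edge `s → s + d + e` for `0 ≤ e ≤ C`.  A certificate (ranks, slopes, potentials) shows that
all closed walks at a vertex of the same length have the same total weight `∑ e`.
-/

set_option autoImplicit false

namespace Pool.Agent.W2helper8.QP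

/-- index of the residue `t` in the table of squares (`0` if `t` is not a square) -/
def ix (I t : ℕ) : ℕ := (I >>> (8 * t)) % 256
/-- rank -/
def rk (c j : ℕ) : ℕ := (c >>> (40 * j)) % 256
/-- numerator of the slope -/
def sa (c j : ℕ) : ℕ := (c >>> (40 * j + 8)) % 256
/-- denominator of the slope -/
def sb (c j : ℕ) : ℕ := (c >>> (40 * j + 16)) % 256
/-- potential -/
def pt (c j : ℕ) : ℕ := (c >>> (40 * j + 24)) % 65536

/-- check of one edge -/
def okPair (c e i j : ℕ) : Bool :=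
  Nat.ble (rk c j + 1) (rk c i) ||
    (Nat.beq (rk c j) (rk c i) && Nat.beq (sa c j) (sa c i) && Nat.beq (sb c j) (sb c i) &&
      Nat.ble 1 (sb c i) && Nat.beq (sb c i * e + pt c i) (sa c i + pt c j))

/-- check of one possible edge -/
def okEdge (I c M i u e : ℕ) : Bool :=
  Nat.beq (ix I ((u + e) % M)) 0 || okPair c e i (ix I ((u + e) % M))

/-- check of a certificate `c` for the difference `d` modulo `M` -/
def okD (I C M d c : ℕ) : Bool :=
  (List.range M).all fun s => Nat.beq (ix I s) 0 ||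
    (List.range (C + 1)).all fun e => okEdge I c M (ix I s) (s + d) e

/-- all squares are in the table -/
def okSq (I M : ℕ) : Bool := (List.range M).all fun n => Nat.ble 1 (ix I (n * n % M))

lemma ix_pos {I M X : ℕ} (hM : 0 < M) (hI : okSq I M = true) (hX : IsSquare X) :
    1 ≤ ix I (X % M) := by
  obtain ⟨n, rfl⟩ := hX
  rw [okSq, List.all_eq_true] at hI
  have h := hI (n % M) (List.mem_range.2 (Nat.mod_lt _ hM))
  rw [Nat.ble_eq] at h
  rwa [← Nat.mul_mod] at h

theorem edge {I C M d c : ℕ} (hM : 0 < M) (hI : okSq I M = true) (hok : okD I C M d c = true)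
    {X Y D : ℕ} (hX : IsSquare X) (hY : IsSquare Y) (hD : D % M = d % M)
    (h1 : X + D ≤ Y) (h2 : Y ≤ X + D + C) :
    rk c (ix I (Y % M)) < rk c (ix I (X % M)) ∨
      (rk c (ix I (Y % M)) = rk c (ix I (X % M)) ∧ sa c (ix I (Y % M)) = sa c (ix I (X % M)) ∧
        sb c (ix I (Y % M)) = sb c (ix I (X % M)) ∧ 1 ≤ sb c (ix I (X % M)) ∧
        ∃ e, Y = X + D + e ∧
          sb c (ix I (X % M)) * e + pt c (ix I (X % M)) = sa c (ix I (X % M)) + pt c (ix I (Y % M))) := by
  obtain ⟨e, rfl⟩ : ∃ e, Y = X + D + e := ⟨Y - (X + D), by omega⟩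
  have he : e ≤ C := by omega
  have hi := ix_pos hM hI hX
  have hj := ix_pos hM hI hY
  rw [okD, List.all_eq_true] at hok
  have h3 := hok (X % M) (List.mem_range.2 (Nat.mod_lt _ hM))
  rw [Bool.or_eq_true, Nat.beq_eq] at h3
  rcases h3 with h3 | h3
  · omega
  rw [List.all_eq_true] at h3
  have h4 := h3 e (List.mem_range.2 (by omega))
  have hmod : (X % M + d + e) % M = (X + D + e) % M := by
    have : X % M + d + e ≡ X + D + e [MOD M] :=
      Nat.ModEq.add_right _ (Nat.ModEq.add (Nat.mod_modEq _ _) hD.symm)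
    exact this
  rw [okEdge, Bool.or_eq_true, Nat.beq_eq, hmod] at h4
  rcases h4 with h4 | h4
  · omega
  rw [okPair, Bool.or_eq_true, Nat.ble_eq] at h4
  simp only [Bool.and_eq_true, Nat.beq_eq, Nat.ble_eq] at h4
  rcases h4 with h4 | ⟨⟨⟨⟨h5, h6⟩, h7⟩, h8⟩, h9⟩
  · left; omega
  · right
    exact ⟨h5, h6, h7, h8, e, rfl, h9⟩

theorem walk {I C M d c : ℕ} (hM : 0 < M) (hI : okSq I M = true) (hok : okD I C M d c = true)
    {x : ℕ → ℕ} {D k : ℕ} (hD : D % M = d % M) (hx : ∀ i < k, IsSquare (x i))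
    (hs : ∀ i, i + 1 < k → x i + D ≤ x (i + 1) ∧ x (i + 1) ≤ x i + D + C) (i : ℕ) :
    ∀ m, i + m < k → rk c (ix I (x (i + m) % M)) ≤ rk c (ix I (x i % M)) ∧
      (rk c (ix I (x (i + m) % M)) = rk c (ix I (x i % M)) →
        sa c (ix I (x (i + m) % M)) = sa c (ix I (x i % M)) ∧
        sb c (ix I (x (i + m) % M)) = sb c (ix I (x i % M)) ∧
        sb c (ix I (x i % M)) * x (i + m) + pt c (ix I (x i % M)) =
          sb c (ix I (x i % M)) * x i + m * (sb c (ix I (x i % M)) * D + sa c (ix I (x i % M))) +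
            pt c (ix I (x (i + m) % M)) ∧ (0 < m → 1 ≤ sb c (ix I (x i % M)))) := by
  intro m
  induction m with
  | zero =>
    intro _
    simp
  | succ m ih =>
    intro hm
    obtain ⟨h1, h2⟩ := ih (by omega)
    have h3 := edge hM hI hok (hx (i + m) (by omega)) (hx (i + m + 1) (by omega)) hD
      (hs (i + m) (by omega)).1 (hs (i + m) (by omega)).2
    rw [← Nat.add_assoc i m 1]
    rcases h3 with h3 | ⟨h4, h5, h6, h7, e, h8, h9⟩
    · exact ⟨by omega, fun h => by omega⟩
    · refine ⟨by omega, fun h => ?_⟩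
      obtain ⟨g1, g2, g3, g4⟩ := h2 (by omega)
      refine ⟨by rw [h5, g1], by rw [h6, g2], ?_, fun _ => by rw [← g2]; exact h7⟩
      rw [h8]
      rw [h8] at h9
      rw [g2, g1] at h9
      linarith

theorem closed {I C M d c : ℕ} (hM : 0 < M) (hI : okSq I M = true) (hok : okD I C M d c = true)
    {x : ℕ → ℕ} {D k : ℕ} (hD : D % M = d % M) (hx : ∀ i < k, IsSquare (x i))
    (hs : ∀ i, i + 1 < k → x i + D ≤ x (i + 1) ∧ x (i + 1) ≤ x i + D + C) {i r : ℕ}
    (hr : 0 < r) (hik : i + r < k) (hir : x (i + r) % M = x i % M) :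
    1 ≤ sb c (ix I (x i % M)) ∧ sb c (ix I (x i % M)) * x (i + r) =
      sb c (ix I (x i % M)) * x i + r * (sb c (ix I (x i % M)) * D + sa c (ix I (x i % M))) := by
  obtain ⟨_, h2⟩ := walk hM hI hok hD hx hs i r hik
  rw [hir] at h2
  obtain ⟨_, _, h3, h4⟩ := h2 rfl
  exact ⟨h4 hr, by omega⟩

/-- four equally spaced terms in the same residue class give four squares in arithmetic
progression -/
theorem no_four {I C M d c : ℕ} (hM : 0 < M) (hI : okSq I M = true) (hok : okD I C M d c = true)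
    {x : ℕ → ℕ} {D k : ℕ} (hD0 : 0 < D) (hD : D % M = d % M) (hx : ∀ i < k, IsSquare (x i))
    (hs : ∀ i, i + 1 < k → x i + D ≤ x (i + 1) ∧ x (i + 1) ≤ x i + D + C) {i r : ℕ}
    (hr : 0 < r) (hik : i + 3 * r < k) (h1 : x (i + r) % M = x i % M)
    (h2 : x (i + 2 * r) % M = x i % M) (h3 : x (i + 3 * r) % M = x i % M) : False := by
  have e1 := closed hM hI hok hD hx hs hr (i := i) (by omega) h1
  have e2 := closed hM hI hok hD hx hs hr (i := i + r) (by omega)
    (by rw [show i + r + r = i + 2 * r by ring, h1, h2])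
  have e3 := closed hM hI hok hD hx hs hr (i := i + 2 * r) (by omega)
    (by rw [show i + 2 * r + r = i + 3 * r by ring, h2, h3])
  rw [show i + r + r = i + 2 * r by ring, h1] at e2
  rw [show i + 2 * r + r = i + 3 * r by ring, h2] at e3
  obtain ⟨hb, e1⟩ := e1
  replace e2 := e2.2
  replace e3 := e3.2
  generalize sb c (ix I (x i % M)) = b at *
  generalize sa c (ix I (x i % M)) = a at *
  obtain ⟨p, hp⟩ := hx i (by omega)
  obtain ⟨q, hq⟩ := hx (i + r) (by omega)
  obtain ⟨u, hu⟩ := hx (i + 2 * r) (by omega)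
  obtain ⟨v, hv⟩ := hx (i + 3 * r) (by omega)
  rw [hp, hq] at e1
  rw [hq, hu] at e2
  rw [hu, hv] at e3
  have hb0 : (b : ℤ) ≠ 0 := by
    have : 0 < b := hb
    exact_mod_cast this.ne'
  have z1 : (b : ℤ) * (q * q) = b * (p * p) + r * (b * D + a) := by exact_mod_cast e1
  have z2 : (b : ℤ) * (u * u) = b * (q * q) + r * (b * D + a) := by exact_mod_cast e2
  have z3 : (b : ℤ) * (v * v) = b * (u * u) + r * (b * D + a) := by exact_mod_cast e3
  have f1 : (q : ℤ) ^ 2 - p ^ 2 = u ^ 2 - q ^ 2 := by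
    apply mul_left_cancel₀ hb0
    linear_combination z1 - z2
  have f2 : (u : ℤ) ^ 2 - q ^ 2 = v ^ 2 - u ^ 2 := by
    apply mul_left_cancel₀ hb0
    linear_combination z2 - z3
  have f3 := Pool.Agent.TH213.SP.four_squares f1 f2
  have f4 : (r : ℤ) * (b * D + a) = 0 := by linear_combination (-1) * z1 - b * f3
  have f5 : (r : ℤ) * (b * D + a) ≠ 0 := by
    have : 0 < r * (b * D + a) := by positivity
    exact_mod_cast this.ne'
  exact f5 f4

/-- van der Waerden's theorem for progressions of length four (finite form) -/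
theorem vdw4 (κ : Type) [Finite κ] : ∃ N : ℕ, ∀ f : ℕ → κ, ∃ a r : ℕ, 0 < r ∧ a + 3 * r < N ∧
    f (a + r) = f a ∧ f (a + 2 * r) = f a ∧ f (a + 3 * r) = f a := by
  classical
  obtain ⟨ι, hι, h⟩ := Combinatorics.Line.exists_mono_in_high_dimension (Fin 4) κ
  refine ⟨3 * Fintype.card ι + 1, fun f => ?_⟩
  obtain ⟨l, c, hc⟩ := h (fun v => f (∑ i, (v i : ℕ)))
  obtain ⟨i0, hi0⟩ := l.proper
  let a : ℕ := ∑ i, (((l.idxFun i).getD 0 : Fin 4) : ℕ)
  let T : Finset ι := Finset.univ.filter (fun i => l.idxFun i = none)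
  have hT : 0 < T.card := Finset.card_pos.2 ⟨i0, by simp [T, hi0]⟩
  have key : ∀ t : Fin 4, (∑ i, (l t i : ℕ)) = a + (t : ℕ) * T.card := by
    intro t
    have h1 : ∀ i, (l t i : ℕ) = (((l.idxFun i).getD 0 : Fin 4) : ℕ) +
        (if l.idxFun i = none then (t : ℕ) else 0) := by
      intro i
      rw [Combinatorics.Line.apply_def]
      rcases hh : l.idxFun i with _ | y
      · simp [hh]
      · simp [hh]
    rw [Finset.sum_congr rfl (fun i _ => h1 i), Finset.sum_add_distrib]
    congr 1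
    rw [← Finset.sum_filter, Finset.sum_const, smul_eq_mul, mul_comm]
  have hN : a + 3 * T.card < 3 * Fintype.card ι + 1 := by
    have h1 := key 3
    have h2 : (∑ i, (l 3 i : ℕ)) ≤ ∑ _i : ι, 3 := Finset.sum_le_sum (fun i _ => by omega)
    rw [Finset.sum_const, smul_eq_mul, Finset.card_univ] at h2
    have h3 : ((3 : Fin 4) : ℕ) = 3 := rfl
    rw [h3] at h1
    omega
  refine ⟨a, T.card, hT, hN, ?_, ?_, ?_⟩
  · have h0 := hc 0
    have h1 := hc 1
    simp only [key] at h0 h1
    have e0 : ((0 : Fin 4) : ℕ) = 0 := rfl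
    have e1 : ((1 : Fin 4) : ℕ) = 1 := rfl
    rw [e0, zero_mul, add_zero] at h0
    rw [e1, one_mul] at h1
    rw [h0, h1]
  · have h0 := hc 0
    have h1 := hc 2
    simp only [key] at h0 h1
    have e0 : ((0 : Fin 4) : ℕ) = 0 := rfl
    have e1 : ((2 : Fin 4) : ℕ) = 2 := rfl
    rw [e0, zero_mul, add_zero] at h0
    rw [e1] at h1
    rw [h0, h1]
  · have h0 := hc 0
    have h1 := hc 3
    simp only [key] at h0 h1
    have e0 : ((0 : Fin 4) : ℕ) = 0 := rfl
    have e1 : ((3 : Fin 4) : ℕ) = 3 := rfl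
    rw [e0, zero_mul, add_zero] at h0
    rw [e1] at h1
    rw [h0, h1]

end Pool.Agent.W2helper8.QP
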