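import Pool.Agent.W2helper8.QP.Core

set_option autoImplicit false

namespace Pool.Agent.W2helper8.QP

theorem level {I M C T : ℕ} {L : List (ℕ × ℕ)} (hM : 0 < M) (hMT : M ∣ T)
    (hI : okSq I M = true) (hok : (L.all fun p => okD I C M p.1 p.2) = true)
    {x : ℕ → ℕ} {D k : ℕ} (hD0 : 0 < D) (hx : ∀ i < k, IsSquare (x i))
    (hs : ∀ i, i + 1 < k → x i + D ≤ x (i + 1) ∧ x (i + 1) ≤ x i + D + C)
    (hany : (L.any fun p => Nat.beq p.1 (D % T % M)) = true) {i r : ℕ}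
    (hr : 0 < r) (hik : i + 3 * r < k) (h1 : x (i + r) % T = x i % T)
    (h2 : x (i + 2 * r) % T = x i % T) (h3 : x (i + 3 * r) % T = x i % T) : False := by
  rw [List.any_eq_true] at hany
  obtain ⟨p, hp, hp2⟩ := hany
  rw [Nat.beq_eq, Nat.mod_mod_of_dvd _ hMT] at hp2
  rw [List.all_eq_true] at hok
  have h4 := hok p hp
  have h5 : D % M = p.1 % M := by rw [hp2, Nat.mod_mod]
  have hh : ∀ a b : ℕ, a % T = b % T → a % M = b % M := by
    intro a b hab
    rw [← Nat.mod_mod_of_dvd a hMT, ← Nat.mod_mod_of_dvd b hMT, hab]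
  exact no_four hM hI h4 hD0 h5 hx hs hr hik (hh _ _ h1) (hh _ _ h2) (hh _ _ h3)

end Pool.Agent.W2helper8.QP
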